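import Mathlib

/-!
There is no universal countable right-orderable group.
-/

set_option autoImplicit false

universe u

namespace Pool.Agent.Results.MP_49314d_al.NoUniversal

/-- A group is right-orderable if it has a total order invariant under right multiplication. -/
def RightOrderable (G : Type*) [Group G] : Prop :=
  ∃ _ : LinearOrder G, ∀ x y z : G, x ≤ y → x * z ≤ y * z

/-- A positive cone of a right order. -/
structure IsCone {G : Type*} [Group G] (P : Set G) : Prop where
  mul : ∀ x ∈ P, ∀ y ∈ P, x * y ∈ P
  one : (1 : G) ∉ P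
  total : ∀ x, x ≠ 1 → x ∈ P ∨ x⁻¹ ∈ P

theorem IsCone.rightOrderable {G : Type*} [Group G] {P : Set G} (h : IsCone P) :
    RightOrderable G := by
  classical
  let lt : G → G → Prop := fun x y => y * x⁻¹ ∈ P
  have hst : IsStrictTotalOrder G lt :=
    { trichotomous := by
        intro a b hab hba
        by_contra hne
        have h1 : b * a⁻¹ ≠ 1 := fun h' => hne (mul_inv_eq_one.mp h').symm
        rcases h.total _ h1 with h2 | h2
        · exact hab h2
        · apply hba
          show a * b⁻¹ ∈ P
          rwa [mul_inv_rev, inv_inv] at h2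
      irrefl := by
        intro a ha
        have : a * a⁻¹ ∈ P := ha
        rw [mul_inv_cancel] at this
        exact h.one this
      trans := by
        intro a b c hab hbc
        have h1 := h.mul _ hbc _ hab
        show c * a⁻¹ ∈ P
        rwa [show c * b⁻¹ * (b * a⁻¹) = c * a⁻¹ by group] at h1 }
  refine ⟨linearOrderOfSTO lt, ?_⟩
  intro x y z hxy
  rcases hxy with hxy | hxy
  · left; rw [hxy]
  · right
    show y * z * (x * z)⁻¹ ∈ P
    rwa [show y * z * (x * z)⁻¹ = y * x⁻¹ by group]

/-- The group has a positive cone. -/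
def HasCone (G : Type*) [Group G] : Prop := ∃ P : Set G, IsCone P

theorem HasCone.subgroup {G : Type*} [Group G] (h : HasCone G) (H : Subgroup G) : HasCone H := by
  obtain ⟨P, hP⟩ := h
  refine ⟨{x | (x : G) ∈ P}, ⟨?_, ?_, ?_⟩⟩
  · intro x hx y hy
    exact hP.mul _ hx _ hy
  · exact hP.one
  · intro x hx
    exact hP.total (x : G) (fun h' => hx (Subtype.ext h'))

theorem hasCone_int : HasCone (Multiplicative ℤ) := by
  refine ⟨{x | 0 < Multiplicative.toAdd x}, ⟨?_, ?_, ?_⟩⟩
  · intro x hx y hy
    exact add_pos (show 0 < Multiplicative.toAdd x from hx) hy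
  · exact lt_irrefl (0 : ℤ)
  · intro x hx
    have h1 : Multiplicative.toAdd x ≠ 0 := hx
    rcases lt_or_gt_of_ne h1 with h2 | h2
    · right
      show 0 < Multiplicative.toAdd x⁻¹
      rw [toAdd_inv]; omega
    · left; exact h2

theorem HasCone.semidirect {N H : Type*} [Group N] [Group H] (φ : H →* MulAut N)
    (hN : HasCone N) (hH : HasCone H) : HasCone (N ⋊[φ] H) := by
  obtain ⟨P, hP⟩ := hN
  obtain ⟨Q, hQ⟩ := hH
  refine ⟨{x | x.right ∈ Q ∨ x.right = 1 ∧ x.left ∈ P}, ⟨?_, ?_, ?_⟩⟩
  · rintro x (hx | ⟨hx, hx'⟩) y (hy | ⟨hy, hy'⟩)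
    · left; exact hQ.mul _ hx _ hy
    · left; show x.right * y.right ∈ Q; rwa [hy, mul_one]
    · left; show x.right * y.right ∈ Q; rwa [hx, one_mul]
    · right
      refine ⟨by show x.right * y.right = 1; rw [hx, hy, one_mul], ?_⟩
      show x.left * φ x.right y.left ∈ P
      rw [hx, map_one, MulAut.one_apply]
      exact hP.mul _ hx' _ hy'
  · rintro (h | ⟨_, h⟩)
    · exact hQ.one h
    · exact hP.one h
  · intro x hx
    by_cases h1 : x.right = 1
    · have h2 : x.left ≠ 1 := fun h' => hx (SemidirectProduct.ext h' h1)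
      rcases hP.total _ h2 with h3 | h3
      · left; right; exact ⟨h1, h3⟩
      · right; right
        refine ⟨by rw [SemidirectProduct.inv_right, h1, inv_one], ?_⟩
        rw [SemidirectProduct.inv_left, h1, inv_one, map_one, MulAut.one_apply]
        exact h3
    · rcases hQ.total _ h1 with h2 | h2
      · left; left; exact h2
      · right; left; exact h2

theorem HasCone.pi {K ι : Type*} [Group K] (e : ℕ ≃ ι) (hK : HasCone K) : HasCone (ι → K) := by
  classical
  obtain ⟨P, hP⟩ := hK
  refine ⟨{f | ∃ n : ℕ, f (e n) ∈ P ∧ ∀ m < n, f (e m) = 1}, ⟨?_, ?_, ?_⟩⟩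
  · rintro f ⟨n, hn, hn'⟩ g ⟨m, hm, hm'⟩
    rcases lt_trichotomy n m with h | h | h
    · refine ⟨n, ?_, ?_⟩
      · show f (e n) * g (e n) ∈ P
        rwa [hm' n h, mul_one]
      · intro k hk
        show f (e k) * g (e k) = 1
        rw [hn' k hk, hm' k (hk.trans h), mul_one]
    · subst h
      refine ⟨n, hP.mul _ hn _ hm, ?_⟩
      intro k hk
      show f (e k) * g (e k) = 1
      rw [hn' k hk, hm' k hk, mul_one]
    · refine ⟨m, ?_, ?_⟩
      · show f (e m) * g (e m) ∈ P
        rwa [hn' m h, one_mul]
      · intro k hk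
        show f (e k) * g (e k) = 1
        rw [hn' k (hk.trans h), hm' k hk, mul_one]
  · rintro ⟨n, hn, _⟩
    exact hP.one hn
  · intro f hf
    have hex : ∃ n, f (e n) ≠ 1 := by
      by_contra hcon
      push Not at hcon
      apply hf
      funext i
      have := hcon (e.symm i)
      rwa [Equiv.apply_symm_apply] at this
    have h1 := Nat.find_spec hex
    have h2 : ∀ m < Nat.find hex, f (e m) = 1 := fun m hm => not_not.mp (Nat.find_min hex hm)
    rcases hP.total _ h1 with h3 | h3
    · left; exact ⟨_, h3, h2⟩
    · right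
      refine ⟨_, h3, ?_⟩
      intro m hm
      show (f (e m))⁻¹ = 1
      rw [h2 m hm, inv_one]

/-- Inversion as an automorphism of the infinite cyclic group, and the corresponding action. -/
def kact : Multiplicative ℤ →* MulAut (Multiplicative ℤ) :=
  zpowersHom _ (MulEquiv.inv (Multiplicative ℤ))

/-- The Klein bottle group: a right-orderable group that is not abelian. -/
abbrev KB : Type := Multiplicative ℤ ⋊[kact] Multiplicative ℤ

/-- The shift action of the infinite cyclic group on the sequences. -/
def shift : Multiplicative ℤ →* MulAut (ℤ → KB) where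
  toFun n :=
    { toFun := fun f i => f (i + Multiplicative.toAdd n)
      invFun := fun f i => f (i - Multiplicative.toAdd n)
      left_inv := fun f => by funext i; simp
      right_inv := fun f => by funext i; simp
      map_mul' := fun f g => rfl }
  map_one' := by
    ext f : 1
    funext i
    show f (i + 0) = f i
    rw [add_zero]
  map_mul' m n := by
    ext f : 1
    funext i
    show f (i + (Multiplicative.toAdd m + Multiplicative.toAdd n)) =
      f (i + Multiplicative.toAdd m + Multiplicative.toAdd n)
    rw [add_assoc]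

/-- The unrestricted wreath product of the Klein bottle group with the infinite cyclic group. -/
abbrev W : Type := (ℤ → KB) ⋊[shift] Multiplicative ℤ

theorem hasCone_W : HasCone W :=
  HasCone.semidirect _ (HasCone.pi Equiv.intEquivNat.symm
    (HasCone.semidirect _ hasCone_int hasCone_int)) hasCone_int

/-- The first generator of the Klein bottle group. -/
def kx : KB := SemidirectProduct.inl (Multiplicative.ofAdd 1)
/-- The second generator of the Klein bottle group. -/
def ky : KB := SemidirectProduct.inr (Multiplicative.ofAdd 1)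

theorem kx_ky : kx * ky ≠ ky * kx := by
  intro h
  have := congrArg SemidirectProduct.left h
  revert this
  simp [kx, ky, kact]
  decide

/-- The sequence `kx` at `0`, trivial elsewhere. -/
def ga : W := SemidirectProduct.inl (fun i => if i = 0 then kx else 1)

open Classical in
/-- The sequence `ky` at the places of `S`, trivial elsewhere. -/
noncomputable def gb (S : Set ℤ) : W := SemidirectProduct.inl (fun i => if i ∈ S then ky else 1)

/-- The shift. -/
def gt : W := SemidirectProduct.inr (Multiplicative.ofAdd 1)

theorem conj_ga (n : ℤ) : gt ^ (-n) * ga * gt ^ n =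
    SemidirectProduct.inl (fun i => if i = n then kx else 1) := by
  have h1 : gt ^ (-n) = SemidirectProduct.inr (Multiplicative.ofAdd (-n)) := by
    rw [gt, ← map_zpow, ← ofAdd_zsmul, smul_eq_mul, mul_one]
  have h2 : gt ^ n = (SemidirectProduct.inr (Multiplicative.ofAdd (-n)) : W)⁻¹ := by
    rw [← h1, zpow_neg, inv_inv]
  rw [h1, h2, ← map_inv, ga, ← SemidirectProduct.inl_aut]
  congr 1
  funext i
  show (if i + -n = 0 then kx else 1) = if i = n then kx else 1
  have : (i + -n = 0) ↔ (i = n) := by omega
  simp only [this]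

theorem commute_iff (S : Set ℤ) (n : ℤ) :
    (gt ^ (-n) * ga * gt ^ n) * gb S = gb S * (gt ^ (-n) * ga * gt ^ n) ↔ n ∉ S := by
  classical
  rw [conj_ga, gb, ← map_mul, ← map_mul, SemidirectProduct.inl_inj]
  constructor
  · intro h hn
    have h1 := congrFun h n
    simp only [Pi.mul_apply, if_true, hn] at h1
    exact kx_ky h1
  · intro hn
    funext i
    simp only [Pi.mul_apply]
    by_cases h1 : i = n
    · subst h1; simp [hn]
    · simp [h1]

/-- The three-generator group attached to a set of integers. -/
noncomputable abbrev GS (S : Set ℤ) : Subgroup W := Subgroup.closure {ga, gb S, gt}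

theorem fg_GS (S : Set ℤ) : Group.FG (GS S) := by
  classical
  rw [Group.fg_iff_subgroup_fg]
  refine ⟨{ga, gb S, gt}, ?_⟩
  simp

theorem countable_GS (S : Set ℤ) : Countable (GS S) := by
  have := fg_GS S
  obtain ⟨α, hα, φ, hφ⟩ :=
    (Group.fg_iff_exists_freeGroup_hom_surjective_finite (G := GS S)).1 this
  exact hφ.countable

/-- There is no universal countable right-orderable group: for every countable group `U`,
right-orderable or not, there is a countable (even finitely generated) right-orderable group that
is not isomorphic to a subgroup of `U`. -/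
theorem result : ∀ (U : Type u) [Group U], Countable U →
    ∃ (G : Type) (_ : Group G), Countable G ∧ Group.FG G ∧ RightOrderable G ∧
      ¬ ∃ f : G →* U, Function.Injective f := by
  intro U _ hU
  by_contra hcon
  push Not at hcon
  have h1 : ∀ S : Set ℤ, ∃ f : GS S →* U, Function.Injective f := by
    intro S
    obtain ⟨P, hP⟩ := hasCone_W.subgroup (GS S)
    exact hcon (GS S) inferInstance (countable_GS S) (fg_GS S) hP.rightOrderable
  choose f hf using h1
  have ha : ∀ S, ga ∈ GS S := fun S => Subgroup.subset_closure (by simp)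
  have hb : ∀ S, gb S ∈ GS S := fun S => Subgroup.subset_closure (by simp)
  have ht : ∀ S, gt ∈ GS S := fun S => Subgroup.subset_closure (by simp)
  let A : Set ℤ → U × U × U := fun S => (f S ⟨ga, ha S⟩, f S ⟨gb S, hb S⟩, f S ⟨gt, ht S⟩)
  -- the set can be read off from the images of the generators
  have key : ∀ (S : Set ℤ) (n : ℤ), n ∉ S ↔
      ((A S).2.2 ^ (-n) * (A S).1 * (A S).2.2 ^ n) * (A S).2.1 =
        (A S).2.1 * ((A S).2.2 ^ (-n) * (A S).1 * (A S).2.2 ^ n) := by
    intro S n
    rw [← commute_iff S n]
    show _ ↔ (f S ⟨gt, ht S⟩ ^ (-n) * f S ⟨ga, ha S⟩ * f S ⟨gt, ht S⟩ ^ n) * f S ⟨gb S, hb S⟩ =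
      f S ⟨gb S, hb S⟩ * (f S ⟨gt, ht S⟩ ^ (-n) * f S ⟨ga, ha S⟩ * f S ⟨gt, ht S⟩ ^ n)
    simp only [← map_zpow, ← map_mul]
    rw [(hf S).eq_iff, ← Subtype.val_inj]
    rfl
  have hinj : Function.Injective A := by
    intro S T hST
    ext n
    rw [← not_iff_not, key S n, key T n, hST]
  have hcount : Countable (Set ℤ) := hinj.countable
  obtain ⟨g, hg⟩ := exists_injective_nat (Set ℤ)
  refine Function.cantor_injective (fun S : Set ℤ => (g S : ℤ)) (fun S T hST => hg ?_)
  have h2 : ((g S : ℕ) : ℤ) = ((g T : ℕ) : ℤ) := hST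
  exact_mod_cast h2

end Pool.Agent.Results.MP_49314d_al.NoUniversal
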